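import Pool.Agent.H18.ACP.Defs
import Pool.Agent.H18.AC.Bc

/-!
Products of different curves: linear combinations of points in blocks, generic points, cycles.
-/

namespace ACP

open ZC AC WeierstrassCurve
open scoped Classical

/-- a family of points over blocks, as a family over the disjoint union of the blocks -/
def unc {k F : Type} [Field k] [Field F] [Algebra k F] {C : Type} {a : C → k} {ι : C → Type}
    (x : ∀ c, ι c → Pt (algebraMap k F (a c))) : ∀ i : (Σ c, ι c), Pt (algebraMap k F (a i.1)) :=
  fun i => x i.1 i.2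

/-- The point with coordinates `∑ j, N c j i • Q c j` of `∏ c, E_{b c} ^ (ι c)`. -/
noncomputable def lin {F : Type} [Field F] {C : Type} {b : C → F} {J ι : C → Type}
    [∀ c, Fintype (J c)] (N : ∀ c, J c → ι c → ℤ) (Q : ∀ c, J c → Pt (b c)) (c : C) (i : ι c) :
    Pt (b c) := ∑ j, N c j i • Q c j

/-- The point `∑ j, N c j i • Q c j + p c i`, `p` a point over the constants. -/
noncomputable def pt {k F : Type} [Field k] [Field F] [Algebra k F] {C : Type} {a : C → k}
    {J ι : C → Type} [∀ c, Fintype (J c)] (N : ∀ c, J c → ι c → ℤ)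
    (Q : ∀ c, J c → Pt (algebraMap k F (a c))) (p : ∀ c, ι c → Pt (a c)) (c : C) (i : ι c) :
    Pt (algebraMap k F (a c)) := lin N Q c i + bca F (p c i)

theorem bcs_pt {k F G : Type} [Field k] [Field F] [Field G] [Algebra k F] [Algebra k G]
    (σ : F →ₐ[k] G) {C : Type} {a : C → k} {J ι : C → Type} [∀ c, Fintype (J c)]
    (N : ∀ c, J c → ι c → ℤ) (Q : ∀ c, J c → Pt (algebraMap k F (a c)))
    (p : ∀ c, ι c → Pt (a c)) (c : C) (i : ι c) :
    bcs σ (pt N Q p c i) = pt N (fun c j => bcs σ (Q c j)) p c i := by
  unfold pt lin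
  rw [map_add, bcs_bca, map_sum]
  simp only [map_zsmul]

/-- A generic point of `∏ i, E_{b i}`: it generates the field and its `x`-coordinates are
algebraically independent. -/
structure IsGen (k : Type) {F : Type} [Field k] [Field F] [Algebra k F] {S : Type} {b : S → k}
    (Q : ∀ i, Pt (algebraMap k F (b i))) : Prop where
  indep : AlgebraicIndependent k (fun i => xc (Q i))
  gen : coordField k Q = ⊤

/-- The cycle attached to a point of `∏ i, E_{a i}` over `F`. -/
noncomputable def cyc (k : Type) {F : Type} [Field k] [Field F] [Algebra k F] {ι : Type}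
    {a : ι → k} (y : ∀ i, Pt (algebraMap k F (a i))) : CyclesM a :=
  Finsupp.single (locus y) (Module.finrank (coordField k y) F : ℤ)

end ACP
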