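import Pool.Agent.H18.AC.Defs

/-!
# Algebraic cycles of dimension `m` on products of elliptic curves

`k` is an algebraically closed field of characteristic zero and `E_a : y ^ 2 = x (x - 1) (x - a)` a
Legendre curve over `k`.  For a family `a : ι → k` let `X = ∏ i, E_{a i}`.

* A closed subvariety `V` of `X` is given by its set of `k`-points, a subset of `∀ i, Pt (a i)`.
* A morphism from (an open part of) a variety with function field `F` to `X` is a family of points
  `y i` of `E_{a i}` over `F`; the closure of its image is `locus y`.
* The push-forward of the divisor of a function `f` on a normal projective variety `W` of dimension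
  `m + 1` with function field `L` under a morphism `x : W → X` is the sum over the prime divisors of `W`,
  that is over the discrete valuations `w` of `L` with residue field `κ(w)` of transcendence degree `m`
  over `k`, of `ord_w f` times the degree `[κ(w) : k(x_w)]` times the closure of `x_w`, where `x_w` is
  the value of `x` at `w`, a point of `X` over `κ(w)`.  (If a discrete valuation `w` is not the valuation
  of a prime divisor of `W` then `k(x_w)` has transcendence degree smaller than `m` and the degree,
  `Module.finrank`, is zero.)

`KPl`, `Red`, `Residue`, `residueHom`, `resPl`, `IsFF` are defined in `Pool.Agent.H18.AC.Defs`.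
-/

namespace ACP

open ZC AC WeierstrassCurve
open scoped Classical

/-- The closure (a set of `k`-points of `∏ i, E_{a i}`) of the image of a point `y` of `∏ i, E_{a i}`
over an extension `F` of `k`: all values of `y` at places of `F` with values in `k`. -/
def locus {k F : Type} [Field k] [Field F] [Algebra k F] {ι : Type} {a : ι → k}
    (y : ∀ i, Pt (algebraMap k F (a i))) : Set (∀ i, Pt (a i)) :=
  {p | ∃ w : KPl k F k, ∀ i, Red w (y i) (p i)}

/-- The subfield `k(y)` generated by the coordinates of a family of points `y i` of `E_{b i}` over
`F`. -/
noncomputable def coordField (k : Type) {F : Type} [Field k] [Field F] [Algebra k F] {ι : Type}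
    {b : ι → F} (y : ∀ i, Pt (b i)) : IntermediateField k F :=
  IntermediateField.adjoin k (Set.range (fun i => xc (y i)) ∪ Set.range (fun i => yc (y i)))

/-- The cycles on `∏ i, E_{a i}` (of any dimension): formal combinations of closed subvarieties. -/
abbrev CyclesM {k : Type} [Field k] {ι : Type} (a : ι → k) : Type := Set (∀ i, Pt (a i)) →₀ ℤ

/-- The cycle `c` of dimension `m` on `∏ i, E_{a i}` is the push-forward of the divisor of a function
`f ≠ 0` on a variety of dimension `m + 1` with function field `L` under a morphism `x` to
`∏ i, E_{a i}`. -/
def IsPrincipalM {k : Type} [Field k] {ι : Type} (a : ι → k) (m : ℕ) (c : CyclesM a) : Prop :=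
  ∃ (L : Type) (_ : Field L) (_ : Algebra k L), IsFF k L (m + 1) ∧
    ∃ (x : ∀ i, Pt (algebraMap k L (a i))) (f : L), f ≠ 0 ∧
      ∀ V : Set (∀ i, Pt (a i)), c V =
        ∑ᶠ (w : Place k L) (y : ∀ i, Pt (algebraMap k (Residue w) (a i)))
          (_ : IsFF k (Residue w) m ∧ (∀ i, Red (resPl w) (x i) (y i)) ∧ locus y = V),
          w.ord f * (Module.finrank (coordField k y) (Residue w) : ℤ)

/-- The cycles of dimension `m` on `∏ i, E_{a i}` rationally equivalent to zero. -/
noncomputable def ratM {k : Type} [Field k] {ι : Type} (a : ι → k) (m : ℕ) :
    AddSubgroup (CyclesM a) :=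
  AddSubgroup.closure {c | IsPrincipalM a m c}

end ACP
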