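import Pool.Agent.H18.ACP.GenStep

/-!
Module GenUniq (project ACP, helper18).  Existence and uniqueness of generic points of
`∏ i, E_{b i}` (see AC.GenUniq).
-/

namespace ACP

open ZC AC WeierstrassCurve
open scoped Classical

section Reindex

variable {k : Type} [Field k] {F : Type} [Field F] [Algebra k F] {S T : Type} {b : T → k}

theorem coordField_reindex (e : S ≃ T) (Q : ∀ i, Pt (algebraMap k F (b i))) :
    coordField k (fun i => Q (e i)) = coordField k Q := by
  unfold coordField
  have h1 : Set.range (fun i => xc (Q (e i))) = Set.range (fun i => xc (Q i)) :=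
    e.surjective.range_comp (fun i => xc (Q i))
  have h2 : Set.range (fun i => yc (Q (e i))) = Set.range (fun i => yc (Q i)) :=
    e.surjective.range_comp (fun i => yc (Q i))
  rw [h1, h2]

theorem IsGen.reindex (e : S ≃ T) {Q : ∀ i, Pt (algebraMap k F (b i))} (hQ : IsGen k Q) :
    IsGen k (fun i => Q (e i)) :=
  ⟨hQ.indep.comp e e.injective, by rw [coordField_reindex]; exact hQ.gen⟩

theorem IsGen.of_reindex (e : S ≃ T) {Q : ∀ i, Pt (algebraMap k F (b i))}
    (hQ : IsGen k (fun i => Q (e i))) : IsGen k Q := by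
  refine ⟨?_, ?_⟩
  · have h := hQ.indep.comp e.symm e.symm.injective
    have h1 : ((fun i => xc (Q (e i))) ∘ e.symm) = fun i => xc (Q i) := by
      funext i
      exact congrArg (fun i => xc (Q i)) (e.apply_symm_apply i)
    rwa [h1] at h
  · rw [← coordField_reindex e]
    exact hQ.gen

/-- a generic point of `∏ i, E_{b (e i)}` gives one of `∏ j, E_{b j}` -/
theorem exists_reindex (e : S ≃ T) (Q : ∀ i, Pt (algebraMap k F (b (e i)))) (hQ : IsGen k Q) :
    ∃ Q' : ∀ i, Pt (algebraMap k F (b i)), IsGen k Q' ∧ ∀ i, Q' (e i) = Q i := by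
  have h : ∀ i, (Equiv.piCongrLeft (fun j => Pt (algebraMap k F (b j))) e) Q (e i) = Q i :=
    fun i => Equiv.piCongrLeft_apply_apply _ _ _ _
  refine ⟨Equiv.piCongrLeft (fun j => Pt (algebraMap k F (b j))) e Q, ?_, h⟩
  apply IsGen.of_reindex e
  have h2 : (fun i => (Equiv.piCongrLeft (fun j => Pt (algebraMap k F (b j))) e) Q (e i)) = Q :=
    funext h
  rw [h2]
  exact hQ

end Reindex

variable {k : Type} [Field k] [CharZero k]

omit [CharZero k] in
private theorem gu_option (S : Type) [Fintype S]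
    (ih : ∀ (b : S → k) (F G : Type) [Field F] [Field G] [Algebra k F] [Algebra k G]
      (Q : ∀ i, Pt (algebraMap k F (b i))) (_ : IsGen k Q)
      (Q' : ∀ i, Pt (algebraMap k G (b i))) (_ : IsGen k Q'),
      ∃ σ : F ≃ₐ[k] G, ∀ j, bcs (σ : F →ₐ[k] G) (Q j) = Q' j) :
    ∀ (b : Option S → k) (F G : Type) [Field F] [Field G] [Algebra k F] [Algebra k G]
      (Q : ∀ i, Pt (algebraMap k F (b i))) (_ : IsGen k Q)
      (Q' : ∀ i, Pt (algebraMap k G (b i))) (_ : IsGen k Q'),
      ∃ σ : F ≃ₐ[k] G, ∀ j, bcs (σ : F →ₐ[k] G) (Q j) = Q' j := by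
  intro b F G _ _ _ _ Q hQ Q' hQ'
  obtain ⟨F₀, _, _, _, _, q, hq, hqj, HF⟩ := gen_split Q hQ
  obtain ⟨G₀, _, _, _, _, q', hq', hqj', HG⟩ := gen_split Q' hQ'
  obtain ⟨σ₀, hσ₀⟩ := ih (fun i => b (some i)) F₀ G₀ q hq q' hq'
  have hmap : (cub (algebraMap k F₀ (b none))).map (((σ₀ : F₀ ≃+* G₀)) : F₀ →+* G₀) =
      cub (algebraMap k G₀ (b none)) := by
    have hc : (((σ₀ : F₀ ≃+* G₀)) : F₀ →+* G₀) (algebraMap k F₀ (b none)) =
        algebraMap k G₀ (b none) := σ₀.commutes (b none)
    unfold cub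
    rw [Polynomial.map_mul, Polynomial.map_mul, Polynomial.map_sub, Polynomial.map_sub,
      Polynomial.map_X, Polynomial.map_one, Polynomial.map_C, hc]
  obtain ⟨τ, hτ, hτs, hτy⟩ := quad_iso (σ₀ : F₀ ≃+* G₀) HF (by rw [hmap]; exact HG)
  have hcomm : ∀ c : k, τ (algebraMap k F c) = algebraMap k G c := by
    intro c
    rw [IsScalarTower.algebraMap_apply k F₀ F, hτ, IsScalarTower.algebraMap_apply k G₀ G]
    congr 1
    exact σ₀.commutes c
  let T : F ≃ₐ[k] G := AlgEquiv.ofRingEquiv (f := τ) hcomm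
  have hT : ∀ z, (T : F →ₐ[k] G) z = τ z := fun z => rfl
  refine ⟨T, ?_⟩
  rintro (_ | j)
  · have h1 : xc (Q none) ≠ 0 := hQ.indep.ne_zero none
    have h2 : xc (Q' none) ≠ 0 := hQ'.indep.ne_zero none
    revert h1 h2 hτs hτy
    generalize Q none = P
    generalize Q' none = P'
    intro hτs hτy h1 h2
    rcases P with _ | ⟨x, y, hxy⟩
    · exact absurd rfl h1
    · rcases P' with _ | ⟨x', y', hxy'⟩
      · exact absurd rfl h2
      · unfold bcs
        refine (bc_some _ _ _).trans ?_
        rw [Affine.Point.some.injEq]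
        exact ⟨hτs, hτy⟩
  · have hcomp : (T : F →ₐ[k] G).comp (IsScalarTower.toAlgHom k F₀ F) =
        (IsScalarTower.toAlgHom k G₀ G).comp (σ₀ : F₀ →ₐ[k] G₀) := AlgHom.ext (fun z => hτ z)
    rw [← hqj j, ← hqj' j, ← hσ₀ j, bcs_bcs, bcs_bcs, hcomp]

omit [CharZero k] in
theorem gen_unique {S : Type} [Fintype S] {b : S → k} {F G : Type} [Field F] [Field G]
    [Algebra k F] [Algebra k G] (Q : ∀ i, Pt (algebraMap k F (b i))) (hQ : IsGen k Q)
    (Q' : ∀ i, Pt (algebraMap k G (b i))) (hQ' : IsGen k Q') :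
    ∃ σ : F ≃ₐ[k] G, ∀ i, bcs (σ : F →ₐ[k] G) (Q i) = Q' i := by
  have key : ∀ (S : Type) [Fintype S], (∀ (b : S → k) (F G : Type) [Field F] [Field G]
      [Algebra k F] [Algebra k G] (Q : ∀ i, Pt (algebraMap k F (b i))) (_ : IsGen k Q)
      (Q' : ∀ i, Pt (algebraMap k G (b i))) (_ : IsGen k Q'),
      ∃ σ : F ≃ₐ[k] G, ∀ j, bcs (σ : F →ₐ[k] G) (Q j) = Q' j) := by
    intro S _
    refine Fintype.induction_empty_option (P := fun (S : Type) _ =>
      ∀ (b : S → k) (F G : Type) [Field F] [Field G]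
      [Algebra k F] [Algebra k G] (Q : ∀ i, Pt (algebraMap k F (b i))) (_ : IsGen k Q)
      (Q' : ∀ i, Pt (algebraMap k G (b i))) (_ : IsGen k Q'),
      ∃ σ : F ≃ₐ[k] G, ∀ j, bcs (σ : F →ₐ[k] G) (Q j) = Q' j) ?_ ?_ ?_ S
    · intro α β _ e ih b F G _ _ _ _ Q hQ Q' hQ'
      obtain ⟨σ, hσ⟩ := ih (fun i => b (e i)) F G _ (hQ.reindex e) _ (hQ'.reindex e)
      refine ⟨σ, fun j => ?_⟩
      obtain ⟨i, rfl⟩ := e.surjective j
      exact hσ i
    · intro b F G _ _ _ _ Q hQ Q' hQ'
      have h1 : (⊥ : IntermediateField k F) = ⊤ := by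
        have h := hQ.gen
        unfold coordField at h
        rwa [Set.range_eq_empty, Set.range_eq_empty, Set.union_empty,
          IntermediateField.adjoin_empty] at h
      have h2 : (⊥ : IntermediateField k G) = ⊤ := by
        have h := hQ'.gen
        unfold coordField at h
        rwa [Set.range_eq_empty, Set.range_eq_empty, Set.union_empty,
          IntermediateField.adjoin_empty] at h
      let e1 : F ≃ₐ[k] k := (IntermediateField.topEquiv.symm.trans
        (IntermediateField.equivOfEq h1.symm)).trans (IntermediateField.botEquiv k F)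
      let e2 : G ≃ₐ[k] k := (IntermediateField.topEquiv.symm.trans
        (IntermediateField.equivOfEq h2.symm)).trans (IntermediateField.botEquiv k G)
      exact ⟨e1.trans e2.symm, fun j => j.elim⟩
    · intro α _ ih
      exact gu_option α ih
  exact key S b F G Q hQ Q' hQ'

theorem gen_exists (S : Type) [Fintype S] (b : S → k) (hb0 : ∀ i, b i ≠ 0) (hb1 : ∀ i, b i ≠ 1) :
    ∃ (F : Type) (_ : Field F) (_ : Algebra k F) (Q : ∀ i, Pt (algebraMap k F (b i))),
      IsGen k Q := by
  revert b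
  refine Fintype.induction_empty_option (P := fun (S : Type) _ =>
    ∀ (b : S → k) (_ : ∀ i, b i ≠ 0) (_ : ∀ i, b i ≠ 1),
    ∃ (F : Type) (_ : Field F) (_ : Algebra k F) (Q : ∀ i, Pt (algebraMap k F (b i))),
      IsGen k Q) ?_ ?_ ?_ S
  · intro α β _ e ih b hb0 hb1
    obtain ⟨F, _, _, Q, hQ⟩ := ih (fun i => b (e i)) (fun i => hb0 _) (fun i => hb1 _)
    obtain ⟨Q', hQ', _⟩ := exists_reindex e Q hQ
    exact ⟨F, inferInstance, inferInstance, Q', hQ'⟩
  · intro b _ _
    refine ⟨k, inferInstance, inferInstance, fun j => j.elim, ?_, ?_⟩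
    · exact algebraicIndependent_empty_type_iff.2 (algebraMap k k).injective
    · exact Subsingleton.elim _ _
  · intro α _ ih b hb0 hb1
    obtain ⟨F, _, _, Q', hQ'⟩ := ih (fun i => b (some i)) (fun i => hb0 _) (fun i => hb1 _)
    obtain ⟨L, _, _, s, y, H⟩ := exists_quadF (cub (algebraMap k F (b none))) (cub_not_square _)
    let _ : Algebra k L := ((algebraMap F L).comp (algebraMap k F)).toAlgebra
    have _ : IsScalarTower k F L := IsScalarTower.of_algebraMap_eq (fun _ => rfl)
    have _ : CharZero L := charZero_of_injective_algebraMap (algebraMap k L).injective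
    have hns : (leg (algebraMap k L (b none))).toAffine.Nonsingular s y := by
      rw [leg_nonsingular _ _ _ two_ne_zero
        (by rw [Ne, map_eq_zero_iff _ (algebraMap k L).injective]; exact hb0 none)
        (by rw [Ne, map_eq_one_iff _ (algebraMap k L).injective]; exact hb1 none)]
      rw [H.sq]
      unfold cub
      rw [_root_.map_mul, _root_.map_mul, _root_.map_sub, _root_.map_sub, Polynomial.aeval_X,
        _root_.map_one, Polynomial.aeval_C]
      rfl
    let R : ∀ i, Pt (algebraMap k L (b i)) := fun i => match i with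
      | none => .some s y hns
      | some j => bcs (IsScalarTower.toAlgHom k F L) (Q' j)
    exact ⟨L, inferInstance, inferInstance, R,
      gen_join Q' hQ' (.some s y hns) H R rfl (fun _ => rfl)⟩

end ACP
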