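import Pool.Agent.H18.ACP.Bc
import Pool.Agent.H18.AC.RedLin

/-!
Module RedLin (project ACP, helper18).  Values of linear combinations of points, in blocks.
-/

namespace ACP

open ZC AC WeierstrassCurve
open scoped Classical

variable {k : Type} [Field k] [CharZero k] {L κ : Type} [Field L] [Field κ] [Algebra k L]
  [Algebra k κ] {C : Type} {a : C → k} {J ι : C → Type} [∀ c, Fintype (J c)]

theorem red_pt {w : KPl k L κ} (ha0 : ∀ c, a c ≠ 0) (ha1 : ∀ c, a c ≠ 1)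
    (N : ∀ c, J c → ι c → ℤ) {Q : ∀ c, J c → Pt (algebraMap k L (a c))}
    {q : ∀ c, J c → Pt (algebraMap k κ (a c))} (h : ∀ c j, Red w (Q c j) (q c j))
    (p : ∀ c, ι c → Pt (a c)) (c : C) (i : ι c) : Red w (pt N Q p c i) (pt N q p c i) :=
  AC.red_pt (ha0 c) (ha1 c) (N c) (h c) (p c) i

/-- values in `k` itself -/
theorem red_pt' {w : KPl k L k} (ha0 : ∀ c, a c ≠ 0) (ha1 : ∀ c, a c ≠ 1)
    (N : ∀ c, J c → ι c → ℤ) {Q : ∀ c, J c → Pt (algebraMap k L (a c))}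
    {q : ∀ c, J c → Pt (a c)} (h : ∀ c j, Red w (Q c j) (q c j))
    (p : ∀ c, ι c → Pt (a c)) (c : C) (i : ι c) :
    Red w (pt N Q p c i) (lin N q c i + p c i) :=
  AC.red_pt' (ha0 c) (ha1 c) (N c) (h c) (p c) i

/-- the values of a family of points at a place -/
theorem exists_redk_pi (w : KPl k L κ) {S : Type} {b : S → k} (hb0 : ∀ i, b i ≠ 0)
    (hb1 : ∀ i, b i ≠ 1) (Q : ∀ i, Pt (algebraMap k L (b i))) :
    ∃ q : ∀ i, Pt (algebraMap k κ (b i)), ∀ i, Red w (Q i) (q i) := by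
  choose q hq using fun i => exists_redk w (hb0 i) (hb1 i) (Q i)
  exact ⟨q, hq⟩

end ACP
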