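import Pool.Agent.H18.ACP.Bc
import Pool.Agent.H18.AC.QuadGen

/-!
Module GenStep (project ACP, helper18).  Splitting off one coordinate of a generic point, and the
converse (see AC.GenStep).
-/

namespace ACP

open ZC AC WeierstrassCurve
open scoped Classical

variable {k : Type} [Field k] [CharZero k]

open Polynomial in
private theorem gs_aeval_cub {F L : Type} [Field F] [Field L] [Algebra F L] (c : F) (x : L) :
    aeval x (cub c) = x * (x - 1) * (x - algebraMap F L c) := by
  unfold cub
  simp

private theorem gs_eq {L : Type} [Field L] {b : L} (P : Pt b) (hP : xc P ≠ 0) :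
    yc P ^ 2 = xc P * (xc P - 1) * (xc P - b) := by
  rcases P with _ | ⟨x, y, h⟩
  · exact absurd rfl hP
  · exact (leg_equation b x y).1 h.1

omit [CharZero k] in
private theorem gs_lift {a : k} {L : Type} [Field L] [Algebra k L] (F : IntermediateField k L)
    (P : Pt (algebraMap k L a)) (hx : xc P ∈ F) (hy : yc P ∈ F) :
    ∃ P' : Pt (algebraMap k F a), bcs (IsScalarTower.toAlgHom k F L) P' = P := by
  rcases P with _ | ⟨x, y, h⟩
  · exact ⟨.zero, rfl⟩
  · have hx' : x ∈ F := hx
    have hy' : y ∈ F := hy
    have h2 : (leg (algebraMap k F a)).toAffine.Nonsingular (⟨x, hx'⟩ : F) ⟨y, hy'⟩ := by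
      have h3 := (WeierstrassCurve.Affine.map_nonsingular (W := (leg (algebraMap k F a)).toAffine)
        (f := algebraMap F L) (algebraMap F L).injective (⟨x, hx'⟩ : F) ⟨y, hy'⟩).1
      apply h3
      have h4 : ((leg (algebraMap k F a)).toAffine.map (algebraMap F L)) = leg (algebraMap k L a) :=
        leg_map (algebraMap F L) (algebraMap k F a)
      rw [h4]
      exact h
    exact ⟨.some _ _ h2, rfl⟩

private theorem gs_alg_root {F L : Type} [Field F] [Field L] [Algebra F L] {x y b : L}
    (hx : IsAlgebraic F x) (hb : IsAlgebraic F b) (h : y ^ 2 = x * (x - 1) * (x - b)) :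
    IsAlgebraic F y := by
  have h1 : IsAlgebraic F (y ^ 2) := by
    rw [h]
    exact (hx.mul (hx.sub isAlgebraic_one)).mul (hx.sub hb)
  exact h1.of_pow (by norm_num)

omit [CharZero k] in
private theorem gs_transc_up {L : Type} [Field L] [Algebra k L] (F₀ F : IntermediateField k L)
    (hle : F₀ ≤ F) (halg : ∀ z ∈ F, IsAlgebraic F₀ z) {t : L} (ht : Transcendental F₀ t) :
    Transcendental F t := by
  let _ : Algebra F₀ F := (IntermediateField.inclusion hle).toRingHom.toAlgebra
  have _ : IsScalarTower F₀ F L := IsScalarTower.of_algebraMap_eq (fun _ => rfl)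
  have _ : Algebra.IsAlgebraic F₀ F := ⟨fun z => by
    rw [← isAlgebraic_algHom_iff (IsScalarTower.toAlgHom F₀ F L) Subtype.val_injective]
    exact halg z z.2⟩
  exact ht.extendScalars F

omit [CharZero k] in
private theorem gs_range_le {F L : Type} [Field F] [Field L] [Algebra k F] [Algebra k L]
    [Algebra F L] [IsScalarTower k F L] {S : Type} {b : S → k}
    (Q' : ∀ i, Pt (algebraMap k F (b i)))
    (hQ' : coordField k Q' = ⊤) (G : IntermediateField k L)
    (hx : ∀ j, algebraMap F L (xc (Q' j)) ∈ G) (hy : ∀ j, algebraMap F L (yc (Q' j)) ∈ G) (z : F) :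
    algebraMap F L z ∈ G := by
  have h1 : coordField k Q' ≤ G.comap (IsScalarTower.toAlgHom k F L) := by
    unfold coordField
    rw [IntermediateField.adjoin_le_iff]
    rintro w (⟨j, rfl⟩ | ⟨j, rfl⟩)
    · exact hx j
    · exact hy j
  have h2 : z ∈ coordField k Q' := by rw [hQ']; exact IntermediateField.mem_top
  exact h1 h2

omit [CharZero k] in
theorem gen_split {L : Type} [Field L] [Algebra k L] {S : Type} {b : Option S → k}
    (Q : ∀ i, Pt (algebraMap k L (b i))) (hQ : IsGen k Q) :
    ∃ (F : Type) (_ : Field F) (_ : Algebra k F) (_ : Algebra F L) (_ : IsScalarTower k F L)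
      (Q' : ∀ i : S, Pt (algebraMap k F (b (some i)))), IsGen k Q' ∧
      (∀ i, bcs (IsScalarTower.toAlgHom k F L) (Q' i) = Q (some i)) ∧
      IsQuad F L (cub (algebraMap k F (b none))) (xc (Q none)) (yc (Q none)) := by
  obtain ⟨F, hF⟩ : ∃ F : IntermediateField k L,
    F = coordField k (fun j : S => Q (some j)) := ⟨_, rfl⟩
  have hxm : ∀ j : S, xc (Q (some j)) ∈ F := fun j => by
    rw [hF]
    exact IntermediateField.subset_adjoin k _ (Or.inl ⟨j, rfl⟩)
  have hym : ∀ j : S, yc (Q (some j)) ∈ F := fun j => by
    rw [hF]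
    exact IntermediateField.subset_adjoin k _ (Or.inr ⟨j, rfl⟩)
  have hlift : ∀ j : S, ∃ P' : Pt (algebraMap k F (b (some j))),
      bcs (IsScalarTower.toAlgHom k F L) P' = Q (some j) := fun j => gs_lift F _ (hxm j) (hym j)
  choose Q' hQQ using hlift
  have hx' : ∀ j, algebraMap F L (xc (Q' j)) = xc (Q (some j)) := fun j => by
    rw [← hQQ j, xc_bcs]
    rfl
  have hy' : ∀ j, algebraMap F L (yc (Q' j)) = yc (Q (some j)) := fun j => by
    rw [← hQQ j, yc_bcs]
    rfl
  have hne : ∀ i, xc (Q i) ≠ 0 := fun i h0 =>
    (hQ.indep.transcendental i) (by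
      simp only [h0]
      exact isAlgebraic_zero)
  have hF0 : Transcendental F (xc (Q none)) := by
    obtain ⟨F₀, hF₀⟩ : ∃ F₀ : IntermediateField k L,
        F₀ = IntermediateField.adjoin k ((fun j => xc (Q j)) '' {none}ᶜ) := ⟨_, rfl⟩
    have hmem0 : ∀ j : S, xc (Q (some j)) ∈ F₀ := fun j => by
      rw [hF₀]
      exact IntermediateField.subset_adjoin k _ ⟨some j, by simp, rfl⟩
    have hle : F₀ ≤ F := by
      rw [hF₀, IntermediateField.adjoin_le_iff]
      rintro w ⟨i, hi, rfl⟩
      rcases i with _ | j
      · exact absurd rfl hi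
      · exact hxm j
    have halg : ∀ z ∈ F, IsAlgebraic F₀ z := by
      intro z hz
      rw [hF] at hz
      unfold coordField at hz
      refine IntermediateField.adjoin_induction k ?_ ?_ ?_ ?_ ?_ hz
      · rintro w (⟨j, rfl⟩ | ⟨j, rfl⟩)
        · exact isAlgebraic_algebraMap (⟨_, hmem0 j⟩ : F₀)
        · exact gs_alg_root (isAlgebraic_algebraMap (⟨_, hmem0 j⟩ : F₀))
            (isAlgebraic_algebraMap (⟨_, F₀.algebraMap_mem (b (some j))⟩ : F₀))
            (gs_eq _ (hne (some j)))
      · exact fun c => isAlgebraic_algebraMap (⟨_, F₀.algebraMap_mem c⟩ : F₀)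
      · exact fun _ _ _ _ h1 h2 => h1.add h2
      · exact fun _ _ h1 => h1.inv
      · exact fun _ _ _ _ h1 h2 => h1.mul h2
    refine gs_transc_up F₀ F hle halg ?_
    have h1 := ((AlgebraicIndependent.iff_transcendental_adjoin_image (none : Option S)).1
      hQ.indep).2
    rw [hF₀]
    exact IntermediateField.transcendental_adjoin_iff.2 h1
  refine ⟨F, inferInstance, inferInstance, inferInstance, inferInstance, Q', ?_, hQQ, ?_⟩
  · constructor
    · refine AlgebraicIndependent.of_comp (IsScalarTower.toAlgHom k F L) ?_
      have h1 := hQ.indep.comp some (Option.some_injective S)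
      have h2 : ((IsScalarTower.toAlgHom k F L) ∘ fun j => xc (Q' j)) =
          (fun j => xc (Q j)) ∘ some := funext fun j => hx' j
      rw [h2]
      exact h1
    · apply IntermediateField.map_injective (IsScalarTower.toAlgHom k F L)
      have h3 : (⊤ : IntermediateField k F).map (IsScalarTower.toAlgHom k F L) = F := by
        ext z
        constructor
        · rintro ⟨w, _, rfl⟩
          exact w.2
        · intro hz
          exact ⟨⟨z, hz⟩, trivial, rfl⟩
      rw [h3]
      unfold coordField
      rw [IntermediateField.adjoin_map]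
      conv_rhs => rw [hF]
      unfold coordField
      congr 1
      rw [Set.image_union, ← Set.range_comp, ← Set.range_comp]
      congr 2
      · exact funext fun j => hx' j
      · exact funext fun j => hy' j
  · refine quad_of_gen (cub_not_square _) hF0 ?_ ?_
    · rw [gs_aeval_cub, ← IsScalarTower.algebraMap_apply]
      exact gs_eq _ (hne none)
    · rw [eq_top_iff]
      intro z _
      have hz : z ∈ coordField k Q := by
        rw [hQ.gen]
        exact IntermediateField.mem_top
      unfold coordField at hz
      refine IntermediateField.adjoin_induction k ?_ ?_ ?_ ?_ ?_ hz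
      · rintro w (⟨i, rfl⟩ | ⟨i, rfl⟩)
        · rcases i with _ | j
          · exact IntermediateField.subset_adjoin F _ (by simp)
          · exact (IntermediateField.adjoin F {xc (Q none), yc (Q none)}).algebraMap_mem
              (⟨_, hxm j⟩ : F)
        · rcases i with _ | j
          · exact IntermediateField.subset_adjoin F _ (by simp)
          · exact (IntermediateField.adjoin F {xc (Q none), yc (Q none)}).algebraMap_mem
              (⟨_, hym j⟩ : F)
      · exact fun c => (IntermediateField.adjoin F {xc (Q none), yc (Q none)}).algebraMap_mem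
              (algebraMap k F c)
      · exact fun _ _ _ _ h1 h2 => add_mem h1 h2
      · exact fun _ _ h1 => inv_mem h1
      · exact fun _ _ _ _ h1 h2 => mul_mem h1 h2

omit [CharZero k] in
theorem gen_join {F L : Type} [Field F] [Field L] [Algebra k F] [Algebra k L] [Algebra F L]
    [IsScalarTower k F L] {S : Type} {b : Option S → k}
    (Q' : ∀ i : S, Pt (algebraMap k F (b (some i)))) (hQ' : IsGen k Q')
    (q : Pt (algebraMap k L (b none)))
    (H : IsQuad F L (cub (algebraMap k F (b none))) (xc q) (yc q))
    (R : ∀ i, Pt (algebraMap k L (b i))) (h0 : R none = q)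
    (h1 : ∀ i, R (some i) = bcs (IsScalarTower.toAlgHom k F L) (Q' i)) :
    IsGen k R := by
  have hx0 : xc (R none) = xc q := by rw [h0]
  have hy0 : yc (R none) = yc q := by rw [h0]
  have hxs : ∀ j : S, xc (R (some j)) = algebraMap F L (xc (Q' j)) := fun j => by
    rw [h1, xc_bcs]
    rfl
  have hys : ∀ j : S, yc (R (some j)) = algebraMap F L (yc (Q' j)) := fun j => by
    rw [h1, yc_bcs]
    rfl
  constructor
  · have ht : AlgebraicIndependent F (fun _ : Unit => xc q) :=
      (algebraicIndependent_unique_type_iff (x := fun _ : Unit => xc q)).2 (quad_transc H)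
    have h1 := AlgebraicIndependent.sumElim_comp hQ'.indep ht
    have h2 := h1.comp (fun i : Option S => i.elim (Sum.inl ()) Sum.inr) (by
      rintro (_ | i) (_ | j) h
      · rfl
      · cases h
      · cases h
      · exact congrArg some (Sum.inr_injective h))
    have h3 : (fun i => xc (R i)) = Sum.elim (fun _ : Unit => xc q)
        (algebraMap F L ∘ fun j => xc (Q' j)) ∘
          (fun i : Option S => i.elim (Sum.inl ()) Sum.inr) := by
      funext i
      rcases i with _ | j
      · exact hx0
      · exact hxs j
    rw [h3]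
    exact h2
  · rw [eq_top_iff]
    intro z _
    have hz : z ∈ IntermediateField.adjoin F {xc q, yc q} := by
      rw [quad_adjoin H]
      exact IntermediateField.mem_top
    have hxm : ∀ i : Option S, xc (R i) ∈ coordField k R := fun i =>
      IntermediateField.subset_adjoin k _ (Or.inl ⟨i, rfl⟩)
    have hym : ∀ i : Option S, yc (R i) ∈ coordField k R := fun i =>
      IntermediateField.subset_adjoin k _ (Or.inr ⟨i, rfl⟩)
    refine IntermediateField.adjoin_induction F ?_ ?_ ?_ ?_ ?_ hz
    · rintro w (rfl | rfl)
      · rw [← hx0]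
        exact hxm none
      · rw [← hy0]
        exact hym none
    · refine gs_range_le Q' hQ'.gen _ (fun j => ?_) (fun j => ?_)
      · rw [← hxs j]
        exact hxm _
      · rw [← hys j]
        exact hym _
    · exact fun _ _ _ _ h1 h2 => add_mem h1 h2
    · exact fun _ _ h1 => inv_mem h1
    · exact fun _ _ _ _ h1 h2 => mul_mem h1 h2

end ACP
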