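import Pool.Agent.H18.AC.PlaceAt
import Pool.Agent.H18.ACP.GenUniq
import Pool.Agent.H18.ACP.GenTr
import Pool.Agent.H18.ACP.RedLin

/-!
Module LocusPt (project ACP, helper18).  The closure of `N Q + p`, `Q` the generic point of
`∏ c, E_{a c} ^ (J c)`, is a translate of an abelian subvariety (see AC.LocusPt).
-/

namespace ACP

open ZC AC WeierstrassCurve
open scoped Classical

/-- The composite of a place of `L` over `F₀` with residue field `F₀` and a place of `F₀` over `k`. -/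
private theorem compose_place {k F₀ L κ : Type} [Field k] [Field F₀] [Field L] [Field κ]
    [Algebra k F₀] [Algebra F₀ L] [Algebra k L] [IsScalarTower k F₀ L] [Algebra k κ]
    (w₀ : KPl k F₀ κ) (w₁ : Place F₀ L)
    (hres : ∀ u : L, w₁.v u ≤ 1 → ∃ d : F₀, w₁.v (u - algebraMap F₀ L d) < 1) :
    ∃ w : KPl k L κ,
      (∀ (u : L) (d : F₀), w₁.v (u - algebraMap F₀ L d) < 1 → ∀ h : d ∈ w₀.O,
        ∃ h' : u ∈ w.O, w.ρ ⟨u, h'⟩ = w₀.ρ ⟨d, h⟩) ∧
      (∀ (u : L) (d : F₀), w₁.v (u - algebraMap F₀ L d) < 1 → d ∉ w₀.O → u ∉ w.O) ∧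
      (∀ u : L, 1 < w₁.v u → u ∉ w.O) := by
  have hle : ∀ d : F₀, w₁.v (algebraMap F₀ L d) ≤ 1 := by
    intro d
    by_cases hd : d = 0
    · rw [hd, map_zero, map_zero]; exact zero_le_one
    · rw [w₁.triv d hd]
  have huniq : ∀ (u : L) (d d' : F₀), w₁.v (u - algebraMap F₀ L d) < 1 →
      w₁.v (u - algebraMap F₀ L d') < 1 → d = d' := by
    intro u d d' h h'
    by_contra hne
    have h1 : w₁.v (algebraMap F₀ L (d' - d)) = 1 := w₁.triv _ (sub_ne_zero.2 (Ne.symm hne))
    have h2 : algebraMap F₀ L (d' - d) = (u - algebraMap F₀ L d) - (u - algebraMap F₀ L d') := by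
      rw [map_sub]; ring
    have h3 : w₁.v (algebraMap F₀ L (d' - d)) < 1 := by
      rw [h2]
      exact lt_of_le_of_lt (w₁.v.map_sub _ _) (max_lt h h')
    exact absurd h1 (ne_of_lt h3)
  have hval : ∀ (u : L) (d : F₀), w₁.v (u - algebraMap F₀ L d) < 1 → w₁.v u ≤ 1 := by
    intro u d h
    have h2 : u = (u - algebraMap F₀ L d) + algebraMap F₀ L d := by ring
    rw [h2]
    exact le_trans (w₁.v.map_add _ _) (max_le h.le (hle d))
  have hmul : ∀ (u u' : L) (d d' : F₀), w₁.v (u - algebraMap F₀ L d) < 1 →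
      w₁.v (u' - algebraMap F₀ L d') < 1 → w₁.v (u * u' - algebraMap F₀ L (d * d')) < 1 := by
    intro u u' d d' h h'
    have h2 : u * u' - algebraMap F₀ L (d * d') =
        (u - algebraMap F₀ L d) * u' + algebraMap F₀ L d * (u' - algebraMap F₀ L d') := by
      rw [map_mul]; ring
    rw [h2]
    refine lt_of_le_of_lt (w₁.v.map_add _ _) (max_lt ?_ ?_)
    · rw [map_mul]
      exact mul_lt_one_of_nonneg_of_lt_one_left zero_le h (hval u' d' h')
    · rw [map_mul]
      exact mul_lt_one_of_nonneg_of_lt_one_right (hle d) zero_le h'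
  have hadd : ∀ (u u' : L) (d d' : F₀), w₁.v (u - algebraMap F₀ L d) < 1 →
      w₁.v (u' - algebraMap F₀ L d') < 1 → w₁.v (u + u' - algebraMap F₀ L (d + d')) < 1 := by
    intro u u' d d' h h'
    have h2 : u + u' - algebraMap F₀ L (d + d') =
        (u - algebraMap F₀ L d) + (u' - algebraMap F₀ L d') := by
      rw [map_add]; ring
    rw [h2]
    exact lt_of_le_of_lt (w₁.v.map_add _ _) (max_lt h h')
  have hneg : ∀ (u : L) (d : F₀), w₁.v (u - algebraMap F₀ L d) < 1 →
      w₁.v (-u - algebraMap F₀ L (-d)) < 1 := by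
    intro u d h
    have h2 : -u - algebraMap F₀ L (-d) = -(u - algebraMap F₀ L d) := by
      rw [map_neg]; ring
    rw [h2, Valuation.map_neg]
    exact h
  have hself : ∀ d : F₀, w₁.v (algebraMap F₀ L d - algebraMap F₀ L d) < 1 := by
    intro d
    rw [sub_self, map_zero]; exact zero_lt_one
  let O : ValuationSubring L :=
    { carrier := {u | ∃ d : F₀, w₁.v (u - algebraMap F₀ L d) < 1 ∧ d ∈ w₀.O}
      mul_mem' := by
        rintro u u' ⟨d, hd, hdO⟩ ⟨d', hd', hdO'⟩
        exact ⟨d * d', hmul u u' d d' hd hd', mul_mem hdO hdO'⟩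
      one_mem' := ⟨1, by simp, one_mem _⟩
      add_mem' := by
        rintro u u' ⟨d, hd, hdO⟩ ⟨d', hd', hdO'⟩
        exact ⟨d + d', hadd u u' d d' hd hd', add_mem hdO hdO'⟩
      zero_mem' := ⟨0, by simp, zero_mem _⟩
      neg_mem' := by
        rintro u ⟨d, hd, hdO⟩
        exact ⟨-d, hneg u d hd, neg_mem hdO⟩
      mem_or_inv_mem' := by
        intro u
        by_cases hu : w₁.v u ≤ 1
        · obtain ⟨d, hd⟩ := hres u hu
          by_cases hdO : d ∈ w₀.O
          · exact Or.inl ⟨d, hd, hdO⟩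
          · right
            have hd0 : d ≠ 0 := by
              rintro rfl
              exact hdO (zero_mem _)
            have hdi : d⁻¹ ∈ w₀.O := by
              rcases w₀.O.mem_or_inv_mem d with h | h
              · exact absurd h hdO
              · exact h
            have hvd : w₁.v (algebraMap F₀ L d) = 1 := w₁.triv d hd0
            have hu1 : w₁.v u = 1 := by
              refine le_antisymm hu ?_
              by_contra hlt
              push Not at hlt
              have h2 : algebraMap F₀ L d = u - (u - algebraMap F₀ L d) := by ring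
              have h3 : w₁.v (algebraMap F₀ L d) < 1 := by
                rw [h2]
                exact lt_of_le_of_lt (w₁.v.map_sub _ _) (max_lt hlt hd)
              exact absurd hvd (ne_of_lt h3)
            have hu0 : u ≠ 0 := by
              rintro rfl
              rw [map_zero] at hu1
              exact zero_ne_one hu1
            have hdL : algebraMap F₀ L d ≠ 0 := by
              intro h
              rw [h, map_zero] at hvd
              exact zero_ne_one hvd
            refine ⟨d⁻¹, ?_, hdi⟩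
            have h4 : u⁻¹ - algebraMap F₀ L d⁻¹ =
                -((u - algebraMap F₀ L d) * (u⁻¹ * (algebraMap F₀ L d)⁻¹)) := by
              rw [map_inv₀]
              field_simp
              ring
            rw [h4, Valuation.map_neg, map_mul, map_mul, map_inv₀, map_inv₀, hvd, hu1]
            simpa using hd
        · push Not at hu
          right
          refine ⟨0, ?_, zero_mem _⟩
          rw [map_zero, sub_zero, map_inv₀]
          exact inv_lt_one_of_one_lt₀ hu }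
  have hOmem : ∀ u : L, u ∈ O ↔ ∃ d : F₀, w₁.v (u - algebraMap F₀ L d) < 1 ∧ d ∈ w₀.O :=
    fun u => Iff.rfl
  choose f hf hfO using fun u : O => (hOmem u.1).1 u.2
  have hfu : ∀ (u : O) (d : F₀), w₁.v (u.1 - algebraMap F₀ L d) < 1 → f u = d :=
    fun u d h => huniq u.1 _ _ (hf u) h
  let ρ : O →+* κ :=
    { toFun := fun u => w₀.ρ ⟨f u, hfO u⟩
      map_one' := by
        have h1 : f 1 = 1 := hfu 1 1 (by simp)
        have h2 : (⟨f 1, hfO 1⟩ : w₀.O) = 1 := Subtype.ext h1
        rw [h2, map_one]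
      map_mul' := by
        intro u u'
        have h1 : f (u * u') = f u * f u' := hfu (u * u') _ (hmul u.1 u'.1 _ _ (hf u) (hf u'))
        have h2 : (⟨f (u * u'), hfO (u * u')⟩ : w₀.O) = ⟨f u, hfO u⟩ * ⟨f u', hfO u'⟩ :=
          Subtype.ext h1
        rw [h2, map_mul]
      map_zero' := by
        have h1 : f 0 = 0 := hfu 0 0 (by simp)
        have h2 : (⟨f 0, hfO 0⟩ : w₀.O) = 0 := Subtype.ext h1
        rw [h2, map_zero]
      map_add' := by
        intro u u'
        have h1 : f (u + u') = f u + f u' := hfu (u + u') _ (hadd u.1 u'.1 _ _ (hf u) (hf u'))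
        have h2 : (⟨f (u + u'), hfO (u + u')⟩ : w₀.O) = ⟨f u, hfO u⟩ + ⟨f u', hfO u'⟩ :=
          Subtype.ext h1
        rw [h2, map_add] }
  have hρ : ∀ (u : O) (d : F₀) (h : d ∈ w₀.O), w₁.v (u.1 - algebraMap F₀ L d) < 1 →
      ρ u = w₀.ρ ⟨d, h⟩ := by
    intro u d h hd
    have h1 : f u = d := hfu u d hd
    have h2 : (⟨f u, hfO u⟩ : w₀.O) = ⟨d, h⟩ := Subtype.ext h1
    change w₀.ρ ⟨f u, hfO u⟩ = _
    rw [h2]
  refine ⟨⟨O, ρ, ?_, ?_⟩, ?_, ?_, ?_⟩
  · intro c
    obtain ⟨⟨d, hd⟩, hdc⟩ := w₀.surj c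
    exact ⟨⟨algebraMap F₀ L d, ⟨d, hself d, hd⟩⟩, (hρ _ d hd (hself d)).trans hdc⟩
  · intro c
    obtain ⟨h, hc⟩ := w₀.const c
    have hmem : algebraMap k L c ∈ O :=
      ⟨algebraMap k F₀ c, by
        rw [IsScalarTower.algebraMap_apply k F₀ L c]; exact hself _, h⟩
    refine ⟨hmem, ?_⟩
    rw [← hc]
    refine hρ ⟨_, hmem⟩ _ h ?_
    have h5 : w₁.v (algebraMap k L c - algebraMap F₀ L (algebraMap k F₀ c)) < 1 := by
      rw [IsScalarTower.algebraMap_apply k F₀ L c]
      exact hself _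
    exact h5
  · intro u d hd h
    have hu : u ∈ O := ⟨d, hd, h⟩
    exact ⟨hu, hρ ⟨u, hu⟩ d h hd⟩
  · rintro u d hd hdO ⟨d', hd', hdO'⟩
    rw [huniq u d d' hd hd'] at hdO
    exact hdO hdO'
  · rintro u hu ⟨d, hd, -⟩
    exact absurd (hval u d hd) (not_le.2 hu)

/-- Values at a composite place. -/
private theorem compose_red {k F₀ L κ : Type} [Field k] [Field F₀] [Field L] [Field κ]
    [Algebra k F₀] [Algebra F₀ L] [Algebra k L] [Algebra k κ]
    (w₀ : KPl k F₀ κ) (w₁ : Place F₀ L) (w : KPl k L κ)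
    (h1 : ∀ (u : L) (d : F₀), w₁.v (u - algebraMap F₀ L d) < 1 → ∀ h : d ∈ w₀.O,
        ∃ h' : u ∈ w.O, w.ρ ⟨u, h'⟩ = w₀.ρ ⟨d, h⟩)
    (h2 : ∀ (u : L) (d : F₀), w₁.v (u - algebraMap F₀ L d) < 1 → d ∉ w₀.O → u ∉ w.O)
    (h3 : ∀ u : L, 1 < w₁.v u → u ∉ w.O)
    {b : L} {c : F₀} {e : κ} (P : Pt b) (R : Pt c) (p : Pt e) (hS : Sp w₁ P R)
    (hR : Red w₀ R p) : Red w P p := by
  rcases P with _ | ⟨X, Y, hP⟩
  · rcases R with _ | ⟨x, y, hxy⟩
    · rcases p with _ | ⟨x', y', hxy'⟩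
      · trivial
      · exact hR.elim
    · exact hS.elim
  · rcases R with _ | ⟨x, y, hxy⟩
    · rcases p with _ | ⟨x', y', hxy'⟩
      · exact h3 X hS
      · exact hR.elim
    · have hS' : w₁.v (X - algebraMap F₀ L x) < 1 ∧ w₁.v (Y - algebraMap F₀ L y) < 1 := hS
      rcases p with _ | ⟨x', y', hxy'⟩
      · exact h2 X x hS'.1 hR
      · have hR' : (∃ h : x ∈ w₀.O, w₀.ρ ⟨x, h⟩ = x') ∧ (∃ h : y ∈ w₀.O, w₀.ρ ⟨y, h⟩ = y') := hR
        obtain ⟨⟨hx, hx'⟩, ⟨hy, hy'⟩⟩ := hR'
        obtain ⟨hX, hX'⟩ := h1 X x hS'.1 hx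
        obtain ⟨hY, hY'⟩ := h1 Y y hS'.2 hy
        exact ⟨⟨hX, hX'.trans hx'⟩, ⟨hY, hY'.trans hy'⟩⟩

variable {k : Type} [Field k] [IsAlgClosed k] [CharZero k]

private theorem ev_option (S : Type) [Fintype S]
    (ih : ∀ (b : S → k) (_ : ∀ i, b i ≠ 0) (_ : ∀ i, b i ≠ 1) (F : Type) [Field F] [Algebra k F]
      (Q : ∀ i, Pt (algebraMap k F (b i))) (_ : IsGen k Q) (P : ∀ i, Pt (b i)),
      ∃ w : KPl k F k, ∀ j, Red w (Q j) (P j)) :
    ∀ (b : Option S → k) (_ : ∀ i, b i ≠ 0) (_ : ∀ i, b i ≠ 1) (F : Type) [Field F] [Algebra k F]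
      (Q : ∀ i, Pt (algebraMap k F (b i))) (_ : IsGen k Q) (P : ∀ i, Pt (b i)),
      ∃ w : KPl k F k, ∀ j, Red w (Q j) (P j) := by
  intro b hb0 hb1 F _ _ Q hQ P
  obtain ⟨F₀, _, _, _, _, Q', hQ', hQs, hquad⟩ := gen_split Q hQ
  obtain ⟨w₀, hw₀⟩ := ih (fun i => b (some i)) (fun i => hb0 _) (fun i => hb1 _) F₀ Q' hQ'
    (fun j => P (some j))
  have hb : ∀ a : k, algebraMap F₀ F (algebraMap k F₀ a) = algebraMap k F a := fun a =>
    (IsScalarTower.algebraMap_apply k F₀ F a).symm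
  obtain ⟨w₁, hSp, hres⟩ := placeAt_exists (hb0 none) (hb1 none) (hb _) (Q none) hquad
    (bca F₀ (P none))
  obtain ⟨w, h1, h2, h3⟩ := compose_place w₀ w₁ hres
  refine ⟨w, ?_⟩
  rintro (_ | j)
  · exact compose_red w₀ w₁ w h1 h2 h3 (Q none) (bca F₀ (P none)) (P none) hSp
      (red_const' w₀ (P none))
  · rw [← hQs j]
    exact compose_red w₀ w₁ w h1 h2 h3 _ (Q' j) (P (some j)) (sp_const w₁ (hb _) (Q' j)) (hw₀ j)

theorem exists_value {S : Type} [Fintype S] {b : S → k} (hb0 : ∀ i, b i ≠ 0)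
    (hb1 : ∀ i, b i ≠ 1) {F : Type} [Field F] [Algebra k F]
    (Q : ∀ i, Pt (algebraMap k F (b i))) (hQ : IsGen k Q) (P : ∀ i, Pt (b i)) :
    ∃ w : KPl k F k, ∀ i, Red w (Q i) (P i) := by
  have key : ∀ (S : Type) [Fintype S], (∀ (b : S → k) (_ : ∀ i, b i ≠ 0) (_ : ∀ i, b i ≠ 1)
      (F : Type) [Field F] [Algebra k F]
      (Q : ∀ i, Pt (algebraMap k F (b i))) (_ : IsGen k Q) (P : ∀ i, Pt (b i)),
      ∃ w : KPl k F k, ∀ j, Red w (Q j) (P j)) := by
    intro S _
    refine Fintype.induction_empty_option (P := fun (S : Type) _ =>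
      ∀ (b : S → k) (_ : ∀ i, b i ≠ 0) (_ : ∀ i, b i ≠ 1) (F : Type) [Field F] [Algebra k F]
      (Q : ∀ i, Pt (algebraMap k F (b i))) (_ : IsGen k Q) (P : ∀ i, Pt (b i)),
      ∃ w : KPl k F k, ∀ j, Red w (Q j) (P j)) ?_ ?_ ?_ S
    · intro α β _ e ih b hb0 hb1 F _ _ Q hQ P
      obtain ⟨w, hw⟩ := ih (fun i => b (e i)) (fun i => hb0 _) (fun i => hb1 _) F _
        (hQ.reindex e) (fun i => P (e i))
      refine ⟨w, fun j => ?_⟩
      obtain ⟨i, rfl⟩ := e.surjective j
      exact hw i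
    · intro b _ _ F _ _ Q hQ P
      have hbot : (⊥ : IntermediateField k F) = ⊤ := by
        have h := hQ.gen
        rw [← h]
        unfold coordField
        rw [Set.range_eq_empty, Set.range_eq_empty, Set.union_self, IntermediateField.adjoin_empty]
      have hsurj : Function.Surjective (algebraMap k F) := by
        intro u
        have hu : u ∈ (⊥ : IntermediateField k F) := by
          rw [hbot]; exact IntermediateField.mem_top
        exact IntermediateField.mem_bot.1 hu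
      let e : k ≃+* F := RingEquiv.ofBijective (algebraMap k F)
        ⟨(algebraMap k F).injective, hsurj⟩
      let w : KPl k F k :=
        { O := ⊤
          ρ := (e.symm : F →+* k).comp (⊤ : ValuationSubring F).subtype
          surj := by
            intro c
            exact ⟨⟨e c, ValuationSubring.mem_top _⟩, e.symm_apply_apply c⟩
          const := by
            intro c
            exact ⟨ValuationSubring.mem_top _, e.symm_apply_apply c⟩ }
      exact ⟨w, fun j => j.elim⟩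
    · intro α _ ih
      exact ev_option α ih
  exact key S b hb0 hb1 F Q hQ P

section Blocks

variable {C : Type} [Fintype C] {a : C → k} {J ι : C → Type} [∀ c, Fintype (J c)]
  {F : Type} [Field F] [Algebra k F]

theorem locus_pt (ha0 : ∀ c, a c ≠ 0) (ha1 : ∀ c, a c ≠ 1)
    (Q : ∀ c, J c → Pt (algebraMap k F (a c))) (hQ : IsGen k (unc Q))
    (N : ∀ c, J c → ι c → ℤ) (p : ∀ c, ι c → Pt (a c)) :
    locus (unc (pt N Q p)) =
      {x | ∃ P : ∀ c, J c → Pt (a c), ∀ (c : C) (i : ι c), x ⟨c, i⟩ = lin N P c i + p c i} := by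
  ext x
  constructor
  · rintro ⟨w, hw⟩
    have hab : ∀ c, ∃ h : algebraMap k F (a c) ∈ w.O, w.ρ ⟨algebraMap k F (a c), h⟩ = a c :=
      fun c => w.const (a c)
    choose P hP using fun c j => exists_red w (hab c) (ha0 c) (ha1 c) (Q c j)
    refine ⟨P, fun c i => ?_⟩
    exact Red.uniq (hw ⟨c, i⟩) (red_pt' ha0 ha1 N hP p c i)
  · rintro ⟨P, hP⟩
    obtain ⟨w, hw⟩ := exists_value (fun i => ha0 i.1) (fun i => ha1 i.1) (unc Q) hQ
      (fun i : (Σ c, J c) => P i.1 i.2)
    refine ⟨w, ?_⟩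
    rintro ⟨c, i⟩
    rw [hP c i]
    exact red_pt' ha0 ha1 N (fun c j => hw ⟨c, j⟩) p c i

/-- The cycle of the translate of a primitive abelian subvariety has multiplicity one. -/
theorem cyc_prim [∀ c, Fintype (ι c)] [∀ c, DecidableEq (J c)] (ha0 : ∀ c, a c ≠ 0)
    (ha1 : ∀ c, a c ≠ 1)
    (Q : ∀ c, J c → Pt (algebraMap k F (a c))) (hQ : IsGen k (unc Q))
    (N U : ∀ c, J c → ι c → ℤ)
    (hU : ∀ c j l, ∑ i, U c j i * N c l i = if j = l then 1 else 0) (p : ∀ c, ι c → Pt (a c)) :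
    cyc k (unc (pt N Q p)) = Finsupp.single
      {x | ∃ P : ∀ c, J c → Pt (a c), ∀ (c : C) (i : ι c), x ⟨c, i⟩ = lin N P c i + p c i} 1 := by
  unfold cyc
  rw [locus_pt ha0 ha1 Q hQ N p]
  have hpt : pt (fun (c : C) (i : ι c) (j : J c) => U c j i) (pt N Q p)
      (fun c j => -(∑ i, U c j i • p c i)) = Q := by
    funext c j
    have h1 : pt (fun (c : C) (i : ι c) (j : J c) => U c j i) (pt N Q p)
        (fun c j => -(∑ i, U c j i • p c i)) c j =
        (∑ i, U c j i • (∑ l, N c l i • Q c l + bca F (p c i))) +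
          bca F (-(∑ i, U c j i • p c i)) := rfl
    rw [h1, map_neg, map_sum]
    have h2 : ∀ i, bca F (U c j i • p c i) = U c j i • bca F (p c i) := fun i => map_zsmul _ _ _
    simp only [h2, smul_add, Finset.sum_add_distrib]
    rw [add_assoc, add_neg_cancel, add_zero]
    simp only [Finset.smul_sum, smul_smul]
    rw [Finset.sum_comm]
    simp only [← Finset.sum_smul, hU]
    simp
  have htop : coordField k (unc (pt N Q p)) = ⊤ := by
    refine top_le_iff.1 ?_
    rw [← hQ.gen]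
    have h := coordField_le (pt N Q p) (coordField k (unc (pt N Q p)))
      (fun c i => ⟨IntermediateField.subset_adjoin _ _ (Or.inl ⟨⟨c, i⟩, rfl⟩),
        IntermediateField.subset_adjoin _ _ (Or.inr ⟨⟨c, i⟩, rfl⟩)⟩)
      (fun (c : C) (i : ι c) (j : J c) => U c j i) (fun c j => -(∑ i, U c j i • p c i))
    rw [hpt] at h
    exact h
  rw [htop, IntermediateField.finrank_top]
  norm_num

end Blocks

end ACP
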