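import Pool.Agent.H18.AC.PlaceAt
import Pool.Agent.H18.ACP.Triv
import Pool.Agent.H18.ACP.GenTr
import Pool.Agent.H18.ACP.CycInv
import Pool.Agent.H18.ACP.GenStep

/-!
Module PlaceGen (project ACP, helper18).  The prime divisor {Q 0 = R(Q 1, ..., Q m)} of E ^ (m+1), R an F-rational point of
E, F = k(Q 1, ..., Q m): its place over k, residue field F, uniqueness and orders.
PROOF.  w = the place w_F : Place F L of placeAt_exists with scalars restricted to k: the same valuation.  Residue w is a field with an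
embedding φ of F (triv_emb with F trivially valued, w_F.triv), surjective because every u with w.v u ≤ 1 is congruent to an element of F;
so φ is an isomorphism F ≃ₐ[k] Residue w (AlgEquiv.ofBijective).  Red of Q 0: Sp w_F (Q 0) R means: coordinates congruent to those of R,
i.e. Red (resPl w) (Q 0) (bcs φ R).  Red of Q (j+1): triv_emb.  IsFF k (Residue w) m: isFF_congr and IsGen.isFF.
Uniqueness: w' with F-trivial and Red (resPl w') (Q 0) (bcs φ' R): as a place over F it satisfies Sp w' (Q 0) R; placeAt_unique.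
-/

namespace ACP

open ZC AC WeierstrassCurve
open scoped Classical

variable {k : Type} [Field k] [IsAlgClosed k] [CharZero k] {a : k} {F L : Type} [Field F] [Field L]
  [Algebra k F] [Algebra k L] [Algebra F L] [IsScalarTower k F L]

private theorem PG_res_eq {k L : Type} [Field k] [Field L] [Algebra k L] (w : Place k L) (X X' : L)
    (h : X ∈ w.v.valuationSubring) (h' : X' ∈ w.v.valuationSubring) :
    residueHom w ⟨X, h⟩ = residueHom w ⟨X', h'⟩ ↔ w.v (X - X') < 1 := by
  have h1 : residueHom w ⟨X, h⟩ = residueHom w ⟨X', h'⟩ ↔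
      IsLocalRing.residue w.v.valuationSubring (⟨X, h⟩ - ⟨X', h'⟩) = 0 := by
    rw [map_sub, sub_eq_zero]
    rfl
  rw [h1, IsLocalRing.residue_eq_zero_iff, ValuationSubring.valuation_lt_one_iff]
  exact (((Valuation.isEquiv_iff_val_lt_one).1 (Valuation.isEquiv_valuation_valuationSubring w.v)) ).symm

/-- restriction of scalars of a place -/
private def PG_down (k : Type) {F L : Type} [Field k] [Field F] [Field L] [Algebra k F]
    [Algebra k L] [Algebra F L] [IsScalarTower k F L] (w : Place F L) : Place k L where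
  v := w.v
  surj := w.surj
  triv c hc := by
    rw [IsScalarTower.algebraMap_apply k F L]
    exact w.triv _ (by rwa [Ne, map_eq_zero])

/-- a place which is trivial on a larger field -/
private def PG_up {k F L : Type} [Field k] [Field F] [Field L]
    [Algebra k L] [Algebra F L] (w : Place k L)
    (hw : ∀ u : F, u ≠ 0 → w.v (algebraMap F L u) = 1) : Place F L where
  v := w.v
  surj := w.surj
  triv := hw

private theorem PG_mem {k F L : Type} [Field k] [Field F] [Field L]
    [Algebra k L] [Algebra F L] (w : Place k L)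
    (hw : ∀ u : F, u ≠ 0 → w.v (algebraMap F L u) = 1) (u : F) :
    algebraMap F L u ∈ w.v.valuationSubring := by
  rw [Valuation.mem_valuationSubring_iff]
  by_cases hu : u = 0
  · rw [hu, map_zero, map_zero]; exact zero_le_one
  · rw [hw u hu]

private theorem PG_mem_of_sub {k L : Type} [Field k] [Field L] [Algebra k L] (w : Place k L)
    {X X' : L} (h' : X' ∈ w.v.valuationSubring) (h : w.v (X - X') < 1) :
    X ∈ w.v.valuationSubring := by
  rw [Valuation.mem_valuationSubring_iff] at h' ⊢
  have h1 := w.v.map_add (X - X') X'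
  rw [sub_add_cancel] at h1
  exact h1.trans (max_le h.le h')

theorem placeGen_exists (ha0 : a ≠ 0) (ha1 : a ≠ 1) (q : Pt (algebraMap k L a))
    (H : IsQuad F L (cub (algebraMap k F a)) (xc q) (yc q)) (R : Pt (algebraMap k F a)) :
    ∃ (w : Place k L) (φ : F ≃ₐ[k] Residue w), Red (resPl w) q (bcs (φ : F →ₐ[k] Residue w) R) ∧
      (∀ u : F, u ≠ 0 → w.v (algebraMap F L u) = 1) ∧
      (∀ (d : k) (P : Pt (algebraMap k F d)), Red (resPl w)
        (bcs (IsScalarTower.toAlgHom k F L) P) (bcs (φ : F →ₐ[k] Residue w) P)) ∧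
      (R ≠ 0 → R ≠ -R → w.ord (xc q - algebraMap F L (xc R)) = 1) ∧
      (R = 0 → w.ord (xc q) = -2) := by
  obtain ⟨wF, hSp, hres⟩ := placeAt_exists (F := F) ha0 ha1
    (IsScalarTower.algebraMap_apply k F L a).symm q H R
  obtain ⟨φ, hφ, hφR⟩ := triv_emb (PG_down k wF) wF.triv
  have hsurj : Function.Surjective φ := by
    intro r
    obtain ⟨⟨u, hu⟩, rfl⟩ : ∃ u, residueHom (PG_down k wF) u = r := IsLocalRing.residue_surjective r
    obtain ⟨d, hd⟩ := hres u ((Valuation.mem_valuationSubring_iff _ _).1 hu)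
    obtain ⟨hd1, hd2⟩ := hφ d
    refine ⟨d, ?_⟩
    rw [hd2]
    exact ((PG_res_eq (PG_down k wF) _ _ _ _).2 hd).symm
  refine ⟨PG_down k wF, AlgEquiv.ofBijective φ ⟨φ.injective, hsurj⟩, ?_, wF.triv, hφR, ?_, ?_⟩
  · have hcase : ∀ (b : L) (q : Pt b), Sp wF q R →
        Red (resPl (PG_down k wF)) q (bcs φ R) := by
      intro b q hq
      rcases q with _ | ⟨X, Y, hXY⟩ <;> rcases R with _ | ⟨x, y, hxy⟩
      · trivial
      · exact hq.elim
      · intro hX
        exact absurd ((Valuation.mem_valuationSubring_iff _ _).1 hX) (not_le.2 hq)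
      · obtain ⟨hX, hY⟩ := hq
        obtain ⟨hx1, hx2⟩ := hφ x
        obtain ⟨hy1, hy2⟩ := hφ y
        refine ⟨⟨PG_mem_of_sub (PG_down k wF) hx1 hX, ?_⟩, ⟨PG_mem_of_sub (PG_down k wF) hy1 hY, ?_⟩⟩
        · exact ((PG_res_eq (PG_down k wF) _ _ _ _).2 hX).trans hx2.symm
        · exact ((PG_res_eq (PG_down k wF) _ _ _ _).2 hY).trans hy2.symm
    exact hcase _ q hSp
  · intro hR hR'
    exact placeAt_ord_one (F := F) ha0 ha1 (IsScalarTower.algebraMap_apply k F L a).symm q H R
      hR hR' wF hSp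
  · intro hR
    subst hR
    exact placeAt_ord_zero (F := F) ha0 ha1 (IsScalarTower.algebraMap_apply k F L a).symm q H
      wF hSp

private theorem PG_sp {k F L : Type} [Field k] [Field F] [Field L] [Algebra k F]
    [Algebra k L] [Algebra F L] [IsScalarTower k F L] {a : k} (w : Place k L)
    (hw : ∀ u : F, u ≠ 0 → w.v (algebraMap F L u) = 1) (q : Pt (algebraMap k L a))
    (R : Pt (algebraMap k F a)) (y : Pt (algebraMap k (Residue w) a)) (h1 : Red (resPl w) q y)
    (h2 : Red (resPl w) (bcs (IsScalarTower.toAlgHom k F L) R) y) : Sp (PG_up w hw) q R := by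
  rcases R with _ | ⟨x, y0, hxy⟩
  · rcases y with _ | ⟨x', y', hxy'⟩
    · rcases q with _ | ⟨X, Y, hXY⟩
      · trivial
      · exact lt_of_not_ge (fun h => h1 ((Valuation.mem_valuationSubring_iff _ _).2 h))
    · exact h2.elim
  · rcases y with _ | ⟨x', y', hxy'⟩
    · exact absurd (PG_mem w hw x) h2
    · obtain ⟨⟨hx1, hx2⟩, hy1, hy2⟩ := h2
      rcases q with _ | ⟨X, Y, hXY⟩
      · exact h1.elim
      · obtain ⟨⟨hX1, hX2⟩, hY1, hY2⟩ := h1
        exact ⟨(PG_res_eq w _ _ _ _).1 (hX2.trans hx2.symm), (PG_res_eq w _ _ _ _).1 (hY2.trans hy2.symm)⟩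

theorem placeGen_unique (ha0 : a ≠ 0) (ha1 : a ≠ 1) (q : Pt (algebraMap k L a))
    (H : IsQuad F L (cub (algebraMap k F a)) (xc q) (yc q)) (R : Pt (algebraMap k F a))
    (w w' : Place k L) (hw : ∀ u : F, u ≠ 0 → w.v (algebraMap F L u) = 1)
    (hw' : ∀ u : F, u ≠ 0 → w'.v (algebraMap F L u) = 1)
    (y : Pt (algebraMap k (Residue w) a)) (y' : Pt (algebraMap k (Residue w') a))
    (h1 : Red (resPl w) q y) (h2 : Red (resPl w) (bcs (IsScalarTower.toAlgHom k F L) R) y)
    (h1' : Red (resPl w') q y') (h2' : Red (resPl w') (bcs (IsScalarTower.toAlgHom k F L) R) y') :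
    w = w' := by
  have h := placeAt_unique (F := F) ha0 ha1 (IsScalarTower.algebraMap_apply k F L a).symm q H R
    (PG_up w hw) (PG_up w' hw') (PG_sp w hw q R y h1 h2) (PG_sp w' hw' q R y' h1' h2')
  have hv : w.v = w'.v := congrArg (fun z : Place F L => z.v) h
  cases w
  cases w'
  cases hv
  rfl

end ACP
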